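import Pool.Agent.Run7.h759.UM.Iface2

/-!
# Q1 of the project UM: nilpotency of `g - 1` on a finite elementary abelian `p`-group
-/

set_option autoImplicit false

namespace Pool.Agent.Run7.h403.UM

open Pool.Agent.Run7.h759.UM

variable {V : Type} [CommGroup V]

/-- the `i`-th power of `v ↦ g v / v` -/
def Ti (g : MulAut V) (i : ℕ) : V →* V := (Tm g ^ i : Monoid.End V)

theorem Ti_succ (g : MulAut V) (i : ℕ) (v : V) : Ti g (i + 1) v = g (Ti g i v) / Ti g i v := by
  unfold Ti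
  rw [pow_succ']
  rfl

theorem Ti_succ' (g : MulAut V) (i : ℕ) (v : V) : Ti g (i + 1) v = Ti g i (g v / v) := by
  unfold Ti
  rw [pow_succ]
  rfl

theorem comm_T {g k : MulAut V} (hc : k * g = g * k) (i : ℕ) (v : V) :
    k (Ti g i v) = Ti g i (k v) := by
  induction i generalizing v with
  | zero => rfl
  | succ n ih =>
    rw [Ti_succ', Ti_succ', ih, map_div]
    congr 2
    exact congrArg (fun f : MulAut V => f v) hc

theorem mem_iff {g k : MulAut V} (hc : k * g = g * k) (i : ℕ) (x : V) :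
    k x ∈ (Ti g i).range ↔ x ∈ (Ti g i).range := by
  constructor
  · rintro ⟨v, hv⟩
    refine ⟨k⁻¹ v, ?_⟩
    have hc' : k⁻¹ * g = g * k⁻¹ := by
      rw [inv_mul_eq_iff_eq_mul, ← mul_assoc, hc, mul_assoc, mul_inv_cancel, mul_one]
    rw [← comm_T hc', hv]
    exact MulEquiv.symm_apply_apply k x
  · rintro ⟨v, hv⟩
    exact ⟨k v, by rw [← comm_T hc, hv]⟩

/-- the permutation of a stable subgroup -/
def rs (k : MulAut V) (U : Subgroup V) (hU : ∀ x, k x ∈ U ↔ x ∈ U) : Equiv.Perm U :=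
  Equiv.Perm.subtypePerm (MulEquiv.toEquiv k : Equiv.Perm V) hU

theorem rs_coe (k : MulAut V) (U : Subgroup V) (hU : ∀ x, k x ∈ U ↔ x ∈ U) (u : U) :
    ((rs k U hU u : U) : V) = k u := rfl

theorem rs_pow (k : MulAut V) (U : Subgroup V) (hU : ∀ x, k x ∈ U ↔ x ∈ U) (n : ℕ) (u : U) :
    (((rs k U hU ^ n) u : U) : V) = (k ^ n) u := by
  induction n with
  | zero => rfl
  | succ n ih => rw [pow_succ', pow_succ', Equiv.Perm.mul_apply, rs_coe, ih]; rfl

theorem rs_one (k : MulAut V) (U : Subgroup V) (hU : ∀ x, k x ∈ U ↔ x ∈ U) (n : ℕ)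
    (hk : k ^ n = 1) : rs k U hU ^ n = 1 := by
  ext u
  rw [rs_pow, hk]
  rfl

theorem card_mod_one [Finite V] {l : ℕ} [Fact l.Prime] (h : MulAut V) (hl : h ^ l = 1)
    (hf : ∀ v, h v = v → v = 1) (U : Subgroup V) (hU : ∀ x, h x ∈ U ↔ x ∈ U) :
    Nat.card U ≡ 1 [MOD l] := by
  classical
  have : Fintype U := Fintype.ofFinite U
  have h1 : rs h U hU ^ l ^ 1 = 1 := by rw [pow_one]; exact rs_one h U hU l hl
  have h2 := Equiv.Perm.card_compl_support_modEq h1
  have h3 : (rs h U hU).supportᶜ = {1} := by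
    ext x
    rw [Finset.mem_compl, Equiv.Perm.mem_support, not_not, Finset.mem_singleton]
    constructor
    · intro hx
      have := congrArg (fun u : U => (u : V)) hx
      exact Subtype.ext (hf _ this)
    · rintro rfl
      exact Subtype.ext (map_one h)
  rw [h3, Finset.card_singleton] at h2
  rw [Nat.card_eq_fintype_card]
  exact h2.symm

theorem exists_fix [Finite V] {p : ℕ} [Fact p.Prime] (hp : ∀ v : V, v ^ p = 1) (g : MulAut V)
    {s : ℕ} (hg : g ^ p ^ s = 1) (U : Subgroup V) (hU : ∀ x, g x ∈ U ↔ x ∈ U) (hne : U ≠ ⊥) :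
    ∃ u ∈ U, u ≠ 1 ∧ g u = u := by
  classical
  have : Fintype U := Fintype.ofFinite U
  obtain ⟨u, hu, hu1⟩ := (Subgroup.ne_bot_iff_exists_ne_one (H := U)).1 hne |> fun ⟨a, ha⟩ =>
    (⟨a, a.2, fun h => ha (Subtype.ext h)⟩ : ∃ u : V, u ∈ U ∧ u ≠ 1)
  have ho : orderOf u = p := orderOf_eq_prime (hp _) hu1
  have hd : p ∣ Fintype.card U := by
    rw [← Nat.card_eq_fintype_card]
    have := Subgroup.orderOf_dvd_natCard U hu
    rwa [ho] at this
  obtain ⟨b, hb, hb1⟩ := Equiv.Perm.exists_fixed_point_of_prime' hd (rs_one g U hU _ hg)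
    (a := 1) (Subtype.ext (map_one g))
  exact ⟨b, b.2, fun h => hb1 (Subtype.ext h), congrArg (fun u : U => (u : V)) hb⟩

theorem anti (g : MulAut V) (i : ℕ) : (Ti g (i + 1)).range ≤ (Ti g i).range := by
  rintro _ ⟨v, rfl⟩
  exact ⟨g v / v, (Ti_succ' g i v).symm⟩

theorem strict [Finite V] {p : ℕ} [Fact p.Prime] (hp : ∀ v : V, v ^ p = 1) (g : MulAut V)
    {s : ℕ} (hg : g ^ p ^ s = 1) (i : ℕ) (hne : (Ti g i).range ≠ ⊥) :
    (Ti g (i + 1)).range ≠ (Ti g i).range := by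
  intro heq
  obtain ⟨u, hu, hu1, hgu⟩ := exists_fix hp g hg _ (mem_iff (k := g) rfl i) hne
  -- `T` is onto on the finite group `U`, so one to one
  have hst : ∀ x ∈ (Ti g i).range, g x / x ∈ (Ti g i).range := fun x hx =>
    div_mem ((mem_iff (k := g) rfl i x).2 hx) hx
  let φ : (Ti g i).range → (Ti g i).range := fun x => ⟨g x / x, hst x x.2⟩
  have hs : Function.Surjective φ := by
    rintro ⟨y, hy⟩
    have hy' : y ∈ (Ti g (i + 1)).range := heq ▸ hy
    obtain ⟨v, hv⟩ := hy'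
    refine ⟨⟨Ti g i v, ⟨v, rfl⟩⟩, Subtype.ext ?_⟩
    show g (Ti g i v) / Ti g i v = y
    rw [← hv, Ti_succ]
  have hi : Function.Injective φ := Finite.injective_iff_surjective.2 hs
  have : (⟨u, hu⟩ : (Ti g i).range) = 1 := by
    apply hi
    apply Subtype.ext
    show g u / u = g 1 / 1
    rw [hgu, map_one, div_self', div_self']
  exact hu1 (congrArg Subtype.val this)

theorem step [Finite V] {p l f : ℕ} [Fact p.Prime] [Fact l.Prime] (hlp : OrdGe p l f)
    (hp : ∀ v : V, v ^ p = 1) (h g : MulAut V) (hl : h ^ l = 1)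
    (hf : ∀ v, h v = v → v = 1) (hc : h * g = g * h) {s : ℕ} (hg : g ^ p ^ s = 1)
    (i : ℕ) (hne : (Ti g i).range ≠ ⊥) :
    p ^ f ≤ (Ti g (i + 1)).range.relIndex (Ti g i).range := by
  have hpp : p.Prime := Fact.out
  have hV : IsPGroup p V := fun v => ⟨1, by simpa using hp v⟩
  set A := (Ti g i).range with hA
  set B := (Ti g (i + 1)).range with hB
  have hBA : B ≤ A := anti g i
  have h1 : Nat.card A ≡ 1 [MOD l] := card_mod_one h hl hf A (mem_iff hc i)
  have h2 : Nat.card B ≡ 1 [MOD l] := card_mod_one h hl hf B (mem_iff hc (i + 1))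
  have h3 : Nat.card B * B.relIndex A = Nat.card A := by
    rw [← Subgroup.relIndex_bot_left, ← Subgroup.relIndex_bot_left]
    exact Subgroup.relIndex_mul_relIndex ⊥ B A bot_le hBA
  obtain ⟨n, hn⟩ := IsPGroup.iff_card.1 (hV.to_subgroup A)
  have h4 : B.relIndex A ∣ p ^ n := by rw [← hn, ← h3]; exact dvd_mul_left _ _
  obtain ⟨d, -, hd⟩ := (Nat.dvd_prime_pow hpp).1 h4
  rw [hd]
  have hd0 : 0 < d := by
    rcases Nat.eq_zero_or_pos d with h0 | h0
    · exfalso
      rw [h0, pow_zero, Subgroup.relIndex_eq_one] at hd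
      exact strict hp g hg i hne (le_antisymm hBA hd)
    · exact h0
  have h5 : p ^ d ≡ 1 [MOD l] := by
    have h6 : 1 * p ^ d ≡ Nat.card B * p ^ d [MOD l] := Nat.ModEq.mul_right _ h2.symm
    rw [← hd, h3, one_mul] at h6
    rw [← hd]
    exact h6.trans h1
  apply Nat.pow_le_pow_right hpp.pos
  by_contra hlt
  rw [not_le] at hlt
  apply hlp d hd0 hlt
  exact (Nat.modEq_iff_dvd' (Nat.one_le_pow _ _ hpp.pos)).1 h5.symm

theorem bot_of_le (g : MulAut V) {i j : ℕ} (hij : i ≤ j) (hb : (Ti g i).range = ⊥) :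
    (Ti g j).range = ⊥ := by
  induction hij with
  | refl => exact hb
  | step _ ih => exact le_bot_iff.1 (ih ▸ anti g _)

theorem ge [Finite V] {p l f : ℕ} [Fact p.Prime] [Fact l.Prime] (hlp : OrdGe p l f)
    (hp : ∀ v : V, v ^ p = 1) (h g : MulAut V) (hl : h ^ l = 1)
    (hf : ∀ v, h v = v → v = 1) (hc : h * g = g * h) {s : ℕ} (hg : g ^ p ^ s = 1)
    (e : ℕ) (hne : (Ti g e).range ≠ ⊥) (i : ℕ) (hi : i ≤ e) :
    p ^ (f * i) ≤ (Ti g i).range.index := by
  induction i with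
  | zero =>
    rw [Nat.mul_zero, pow_zero]
    exact Nat.one_le_iff_ne_zero.2 Subgroup.index_ne_zero_of_finite
  | succ i ih =>
    have h1 := ih (by omega)
    have h2 := step hlp hp h g hl hf hc hg i (fun hb => hne (bot_of_le g (by omega) hb))
    rw [← Subgroup.relIndex_mul_index (anti g i), Nat.mul_succ, Nat.add_comm, pow_add]
    exact Nat.mul_le_mul h2 h1

theorem t_nil : S_nil := by
  intro p l f e _ hl hlp ho V _ _ hp h g hhl hf hc ⟨s, hg⟩ hlt
  have : Fact l.Prime := ⟨hl⟩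
  by_contra hne
  exact absurd (ge ho hp h g hhl hf hc hg e hne e le_rfl) (not_le.2 hlt)

end Pool.Agent.Run7.h403.UM
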